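import Mathlib
import Pool.Agent.H10.Theta

namespace Pool.Agent.Results.MP_27c522_an.Odd

open Polynomial

/-- The polynomial `p_n`. -/
noncomputable def p (n : ℕ) : ℝ[X] :=
  ∑ k ∈ Finset.range (n + 1), C ((-1) ^ k * (2 * k + 1) : ℝ) * X ^ (k * (k + 1))

theorem result (n : ℕ) (hn : Odd n) :
    {x : ℝ | (p n).eval x = 0}.ncard = 2 ∧ (p n).roots.card = 2 := by
  obtain ⟨m, rfl⟩ := hn
  obtain ⟨r, r0, h⟩ := H10.Theta.odd_roots m
  change (p (2 * m + 1)).roots = _ at h
  have p0 : p (2 * m + 1) ≠ 0 := fun h0 => by simp [h0] at h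
  refine ⟨?_, by simp [h]⟩
  refine (congrArg Set.ncard ?_).trans (Set.ncard_pair (show r ≠ -r by linarith))
  ext x
  simpa [h] using (mem_roots p0 (a := x)).symm

end Pool.Agent.Results.MP_27c522_an.Odd
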